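import Pool.Agent.Zk74.TZ.Main
import Pool.Agent.Zk74.TS.Fin
import Pool.Agent.Zk74.TS.Conv

set_option autoImplicit false

/-! # The monodromy conjecture for topological zeta functions: a class of hypersurfaces closed under
Thom-Sebastiani sums, forms, products, powers, automorphisms, with determinantal building blocks

We prove the strong form of the monodromy conjecture for the global topological zeta functions, and so
Q1, for all the polynomials `F` in a class `ClTS L false` (`Pool.Agent.Zk74.TS.Cls`): all poles of the
topological zeta function of `F` are roots of the Bernstein-Sato polynomial of `F`. By the theorem of
Malgrange and Kashiwara, `exp(2 π i s₀)` is a monodromy eigenvalue of `F`, for each pole `s₀`.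

The class is the class `ClTS L false false` of ideals in `Pool.Agent.Zk74.TS.Cls`, restricted to
principal ideals `(F)`. Among the ideals in the class:

* the ideals of `ℂ[x, y]`; the ideals of `ℂ[x₀, x₁, x₂]` generated by forms of the same degree, three of
  which are algebraically independent; the ideals generated by forms of the same degree without a common
  zero outside the origin; the ideals `(x ^ m)`;
* the products of ideals of minors of a generic or generic symmetric matrix, or of ideals of Pfaffians;
  the products of ideals of maximal minors of generic Hankel matrices; the ideals such that the series
  of the volumes of the arcs with `ord ≥ e` has only denominators which belong to Rees divisors;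
* the sums and products of ideals of the class in disjoint sets of variables; the powers of a principal
  ideal; the images of an ideal under automorphisms of the polynomial ring; the passage from the global
  to the local class (at the origin) and from the local to the global class, for ideals generated by
  forms of the same degree;
* the principal ideals `(g)` of the following hypersurfaces: `x ^ m`; the plane curves and the
  hypersurfaces in the class (without Thom-Sebastiani sums) with at most a simple pole at `-1`;
  the hypersurfaces of the class for which `-1` is a double root of the `b` in the functional equations;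
  `h ∏_t (∑_j y_{t, j} h_{t, j}) ^ a_t` if the ideal `h ∏_t (h_{t, j})_j ^ a_t` is in the class; the
  Thom-Sebastiani sums `∑_j y_j f_j(x) + g(z)`, with `(f_j)` in the class and `g` in this list; and what is
  obtained by dropping variables which do not occur.

For example `F = ∑_j y_j Δ_j(x) + g(z₁, z₂)`, where the `Δ_j` are the minors of size `p` of a generic, symmetric
or skew symmetric matrix (Pfaffians), or the maximal minors of a Hankel matrix, and `g` is a plane curve
such that its motivic zeta function has a simple pole at `-1`, or that `-1` is a double root of `b_g`; the
products `∏ F_t ^ a_t` of such polynomials in disjoint sets of variables; `∑_t w_t F_t` with further variables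
`w_t`, and so on.

The class consists of pairs `(F, Z)`, where `Z ∈ M⟦T⟧` is the motivic zeta function. The topological zeta
function `Zt` is defined in terms of `Z` by the limit `L → 1` of Denef and Loeser (`IsTopZeta`): `M` has a ring
homomorphism `φ` to `ℤ[w, w⁻¹]` which maps `L` to `w ^ k` (for `M = K₀(Var_ℂ)[1/L]`, the weight polynomials,
`k = 2`; their values at `w = 1` are the Euler characteristics), and for the large natural numbers `s`
`Zt(s)` is the limit of the values of `φ(Z)` at `w = exp h`, `T = L^(-s)` for `h → 0`, `h > 0`.

The proof. By `mt_hyp`, `Z` lies in the ring generated over `M` by `T` and by the `1 / (1 - L^a T^n)`,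
`a < 0 < n`, for which `a / n` is a root of `b`. If `Z` is a quotient of a polynomial by a product of `r` such
denominators, then the expansion in powers of `h` of the value of the numerator, at `T = L^(-s)`, has
coefficients which are polynomials in `s`. So the limit, times the product of the numbers
`k (n s - a)`, is a polynomial in `s` (`top_main`). -/

namespace Pool.Agent.Results.MP_a2a574_ag.ClosureWithSums

open MvPolynomial Pool.Agent.H628R4.TP Pool.Agent.Zk74.TS Pool.Agent.Zk74.TZ

/-- **The strong monodromy conjecture for the global topological zeta functions of the polynomials in
the class `ClTS L false false`.** Let `M` be a commutative ring with a unit `L`, and let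
`φ : M → ℤ[w, w⁻¹]` be a ring homomorphism with `φ(L) = w ^ k`, `k > 0`. Let `F` be a polynomial in the class,
with the motivic zeta function `Z`, and let `Zt` be the topological zeta function which belongs to
`Z` (`IsTopZeta`). Let `b(s) F ^ s = P(s) F ^ (s + 1)` with `P(s)` in the Weyl algebra; for instance, let `b` be
the Bernstein-Sato polynomial of `F`. Then every pole of `Zt` is a root of `b`. -/
theorem result {M : Type} [CommRing M] (L : Mˣ) (φ : M →+* LaurentPolynomial ℤ) (k : ℕ)
    (hk : 0 < k) (hL : φ L = LaurentPolynomial.T k) {σ : Type} (F : MvPolynomial σ ℂ)
    (Z : PowerSeries M) (hF : ClTS L false false ⟨σ, Fin 1, fun _ => F⟩ Z) (Zt : RatFunc ℂ)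
    (ht : IsTopZeta φ k Z Zt) (b : Polynomial ℂ) (hb : IsBFunction F b) (s₀ : ℂ)
    (hs : Zt.denom.eval s₀ = 0) : b.eval s₀ = 0 := by
  have h1 := mt_hyp false F Z hF.toMT b hb 1
  rw [map_one, one_mul] at h1
  exact top_main φ k hk L hL b Z h1 Zt ht s₀ hs

end Pool.Agent.Results.MP_a2a574_ag.ClosureWithSums
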