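import Pool.Agent.Zk37.HG.Int
import Pool.Agent.Zk37.HG.Scale

set_option autoImplicit false

/-! # The monodromy conjecture for global topological zeta functions: hypergraph polynomials suffice

The edge polynomial of a finite hypergraph with the vertices `1, …, N` and the set `E` of edges is `∑_{e ∈ E} ∏_{i ∈ e} x_i`
(`edgePoly E`): all coefficients are equal to one. We consider hypergraphs with the property `Hyp E`: they are 3-partite
(the vertices can be coloured with three colours such that different vertices of an edge have different colours; so all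
edges have at most three vertices, and `edgePoly E` is a trilinear form `∑ T_{ijk} x_i y_j z_k` with
`x_0 = y_0 = z_0 = 1`), and every vertex is in at most three edges.

(A) Let `x ^ (m_1), …, x ^ (m_r)` be monomials in `n` variables. There are `κ`, a hypergraph `E` with `N = n + 2 κ` vertices
and `Hyp E`, and different vertices `t_1, …, t_r`, `{t_j} ∉ E`, such that for ALL complex numbers `c_1, …, c_r` the polynomials
`f_c = ∑_j c_j x ^ (m_j)` and `F_c = edgePoly E + ∑_j c_j x_{t_j}` are related as follows. The topological zeta functions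
determine each other, `(s + κ) ((s + 1) Z_F(s) - 1) = s ((s + κ + 1) Z_f(s + κ) - 1)`;
the poles `≠ -1` of `Z_f`, shifted by `κ`, are poles of `Z_F`; a functional equation of `f_c` with `(s + 1) c(s)` gives one of
`F_c` with `(s + 1) c(s + κ)`. So the conjecture for `F_c` implies the one for `f_c`: the family of all polynomials with given
exponents becomes the family of the linear perturbations of ONE hypergraph polynomial.

(B) The weak conjecture holds for all non-constant complex polynomials if and only if it holds for all polynomials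
`edgePoly E + ∑_i c_i x_i`, `Hyp E`. The same for the strong conjecture.

(C) The weak conjecture holds for all non-constant polynomials with rational coefficients if and only if it holds for the
edge polynomials `edgePoly E` of all hypergraphs with `Hyp E`, `E ≠ ∅`. The same for the strong conjecture.

Construction. `f + (t + v) (w - u)` is the image of `f + t w` by the automorphism `t ↦ t + v`, `w ↦ w - u`. Two such steps
replace a sum `x ^ a V` by `V w + t w + t w' + t' w' + t' x ^ a`: all new coefficients are one. They are used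
(1) with constants `x ^ a = c` for the coefficients, `c x ^ m` becomes `x ^ m w + t w + t w' + t' w' + c t'`; (2) with
`x ^ a = w_0 x_i`, which shortens `w_0 x_i x ^ m`; (3) with `x ^ a = x_i` and a sum `V` of all but two of the
monomials with `x_i`, which distributes the monomials with `x_i` on copies of this variable. -/

namespace Pool.Agent.Results.MP_a2a574_ag.HypergraphPolynomials

open MvPolynomial Pool.Agent.W428.MOT Pool.Agent.N101.CB Pool.Agent.Zk37.HG
open Pool.Agent.H628R4.TP (IsBFunction)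

/-- `R` is a global topological zeta function of `f`, for the ring homomorphism `χ : 𝓜 → ℂ` with
`χ(𝕃) = 1`, for instance the Euler characteristic: the motivic zeta function
`zt f univ = ∑_N [X_N] 𝕃 ^ (-n N) T ^ N`, `X_N` the variety of the `N`-jets `ψ` with `ord f(ψ) = N`, is a
polynomial `Q` in the `F_(N, ν) = (𝕃 - 1) 𝕃 ^ (-ν) T ^ N / (1 - 𝕃 ^ (-ν) T ^ N)`, `N, ν ≥ 1`, with coefficients in
`𝓜`, and `R = (χ Q)(1 / (N s + ν))`. By the formula with an embedded resolution the usual topological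
zeta function has this property. -/
def IsTopZeta (χ : MK ℂ →+* ℂ) {n : ℕ} (f : MvPolynomial (Fin n) ℂ) (R : RatFunc ℂ) : Prop :=
  IsTop χ (zt f Set.univ) R

/-- The weak conjecture for `f`: for every pole `s` of a topological zeta function of `f` and every polynomial `b` with a
functional equation `b(s) f ^ s = P(s) f ^ (s + 1)`, in particular the Bernstein-Sato polynomial, there is an integer `k`
with `b(s + k) = 0`; by the theorem of Malgrange and Kashiwara this means that `exp(2 π i s)` is a monodromy eigenvalue. -/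
def Weak (χ : MK ℂ →+* ℂ) {n : ℕ} (f : MvPolynomial (Fin n) ℂ) : Prop :=
  ∀ R : RatFunc ℂ, IsTopZeta χ f R → ∀ s : ℂ, ¬ Reg R s →
    ∀ b : Polynomial ℂ, IsBFunction f b → ∃ k : ℤ, b.eval (s + k) = 0

/-- The strong conjecture for `f`: every pole of a topological zeta function is a root of every such `b`. -/
def Strong (χ : MK ℂ →+* ℂ) {n : ℕ} (f : MvPolynomial (Fin n) ℂ) : Prop :=
  ∀ R : RatFunc ℂ, IsTopZeta χ f R → ∀ s : ℂ, ¬ Reg R s →
    ∀ b : Polynomial ℂ, IsBFunction f b → b.eval s = 0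

/-- `edgePoly E + ∑_i c_i x_i` -/
noncomputable def perturbed {N : ℕ} (E : Finset (Finset (Fin N))) (c : Fin N → ℂ) : MvPolynomial (Fin N) ℂ :=
  edgePoly E + ∑ i, C (c i) * X i

section Aux

/-- the system of relations -/
def sys : Sys where
  R f g κ := Red f g κ
  refl := Red.refl
  trans := Red.trans
  step := Red.stp

theorem edge_deg {N : ℕ} {E : Finset (Finset (Fin N))} (hE : Hyp E) (hne : E.Nonempty) :
    (∑ e ∈ E, ∏ i ∈ e, X i : MvPolynomial (Fin N) ℚ).totalDegree ≠ 0 := by
  intro h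
  rw [totalDegree_eq_zero_iff_eq_C] at h
  have h1 := congrArg (MvPolynomial.eval (fun _ => (1 : ℚ))) h
  have h0 := congrArg (MvPolynomial.eval (fun _ => (0 : ℚ))) h
  rw [eval_C, map_sum] at h1 h0
  have e1 : ∑ e ∈ E, eval (fun _ => (1 : ℚ)) (∏ i ∈ e, X i) = E.card := by
    rw [Finset.card_eq_sum_ones]
    push_cast
    refine Finset.sum_congr rfl fun e _ => ?_
    rw [map_prod]
    simp
  have e0 : ∑ e ∈ E, eval (fun _ => (0 : ℚ)) (∏ i ∈ e, X i) = 0 := by
    refine Finset.sum_eq_zero fun e he => ?_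
    obtain ⟨i, hi⟩ := hE.nonempty e he
    rw [map_prod]
    exact Finset.prod_eq_zero hi (eval_X _)
  rw [e1] at h1
  rw [e0] at h0
  have h2 : (E.card : ℚ) = 0 := by rw [h1, ← h0]
  have h3 : E.card = 0 := by exact_mod_cast h2
  exact hne.ne_empty (Finset.card_eq_zero.1 h3)

theorem map_edge {N : ℕ} (E : Finset (Finset (Fin N))) :
    map (algebraMap ℚ ℂ) (∑ e ∈ E, ∏ i ∈ e, X i : MvPolynomial (Fin N) ℚ) = edgePoly E := by
  unfold edgePoly
  rw [map_sum]
  refine Finset.sum_congr rfl fun e _ => ?_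
  rw [map_prod]
  refine Finset.prod_congr rfl fun i _ => map_X _ _

theorem as_family {n : ℕ} (f : MvPolynomial (Fin n) ℂ) : ∃ (r : ℕ) (m : Fin r → Fin n →₀ ℕ) (c : Fin r → ℂ),
    f = ∑ j, C (c j) * monomial (m j) 1 := by
  refine ⟨f.support.card, fun j => (f.support.equivFin.symm j : Fin n →₀ ℕ),
    fun j => coeff (f.support.equivFin.symm j : Fin n →₀ ℕ) f, ?_⟩
  have h1 : (∑ j, C (coeff (f.support.equivFin.symm j : Fin n →₀ ℕ) f) *
      monomial (f.support.equivFin.symm j : Fin n →₀ ℕ) (1 : ℂ)) =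
      ∑ m : f.support, C (coeff (m : Fin n →₀ ℕ) f) * monomial (m : Fin n →₀ ℕ) 1 :=
    f.support.equivFin.symm.sum_comp (fun m => C (coeff (m : Fin n →₀ ℕ) f) * monomial (m : Fin n →₀ ℕ) (1 : ℂ))
  rw [h1]
  have h2 : (∑ m : f.support, C (coeff (m : Fin n →₀ ℕ) f) * monomial (m : Fin n →₀ ℕ) (1 : ℂ)) =
      ∑ m ∈ f.support, C (coeff m f) * monomial m 1 :=
    Finset.sum_coe_sort f.support (fun m => C (coeff m f) * monomial m (1 : ℂ))
  rw [h2]
  conv_lhs => rw [f.as_sum]
  refine Finset.sum_congr rfl fun m _ => ?_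
  rw [C_mul_monomial, mul_one]

theorem perturbed_of {N r : ℕ} (E : Finset (Finset (Fin N))) (t : Fin r → Fin N) (c : Fin r → ℂ) :
    ∃ c' : Fin N → ℂ, edgePoly E + ∑ j, C (c j) * X (t j) = perturbed E c' := by
  classical
  refine ⟨fun i => ∑ j, if t j = i then c j else 0, ?_⟩
  unfold perturbed
  congr 1
  have h : ∀ i : Fin N, C (∑ j, if t j = i then c j else 0) * (X i : MvPolynomial (Fin N) ℂ) =
      ∑ j, if t j = i then C (c j) * X (t j) else 0 := by
    intro i
    rw [map_sum, Finset.sum_mul]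
    refine Finset.sum_congr rfl fun j _ => ?_
    by_cases hj : t j = i
    · rw [if_pos hj, if_pos hj, hj]
    · rw [if_neg hj, if_neg hj, C_0, zero_mul]
  rw [Finset.sum_congr rfl fun i _ => h i, Finset.sum_comm]
  refine Finset.sum_congr rfl fun j _ => ?_
  rw [Finset.sum_ite_eq Finset.univ (t j), if_pos (Finset.mem_univ _)]

theorem empty_deg {N : ℕ} {E : Finset (Finset (Fin N))} (h : (edgePoly E).totalDegree ≠ 0) : E.Nonempty := by
  rw [Finset.nonempty_iff_ne_empty]
  rintro rfl
  apply h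
  unfold edgePoly
  rw [Finset.sum_empty, totalDegree_zero]

theorem scale_deg {n : ℕ} {f : MvPolynomial (Fin n) ℚ} (hf : f.totalDegree ≠ 0) {D : ℕ} (hD : D ≠ 0) :
    (C (D : ℂ) * map (algebraMap ℚ ℂ) f).totalDegree ≠ 0 := by
  have h1 : (map (algebraMap ℚ ℂ) f).totalDegree = f.totalDegree := by
    unfold totalDegree
    rw [support_map_of_injective _ (algebraMap ℚ ℂ).injective]
  intro h
  apply hf
  rw [← h1]
  rw [totalDegree_eq_zero_iff_eq_C] at h ⊢
  have hD' : (D : ℂ) ≠ 0 := by exact_mod_cast hD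
  have h2 := congrArg (fun p => C ((D : ℂ)⁻¹) * p) h
  simp only [← mul_assoc, ← C_mul, inv_mul_cancel₀ hD', C_1, one_mul] at h2
  rw [coeff_C_mul, ← mul_assoc, inv_mul_cancel₀ hD', one_mul] at h2
  exact h2

end Aux

/-- **Hypergraph polynomials suffice for the monodromy conjectures.** Let `χ : 𝓜 → ℂ` be a ring homomorphism with
`χ(𝕃) = 1`.

(A) For all `m_1, …, m_r ∈ ℕ ^ n` there are `κ`, `E` with `Hyp E` and `N = n + 2 κ` vertices, and different `t_j` with
`{t_j} ∉ E`, such that for all `c_j ∈ ℂ`, with `f = ∑_j c_j x ^ (m_j)`, `F = edgePoly E + ∑_j c_j x_{t_j}`: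
(1) for every topological zeta function `R` of `f` there is one, `R'`, of `F` with
`(s + κ) ((s + 1) R'(s) - 1) = s ((s + κ + 1) R(s + κ) - 1)`, and if `s ≠ -1` is a pole of `R` then `s - κ` is one of `R'`;
(2) if `f` is not constant, then `F` is not constant, all `b` with `IsBFunction f b` are of the form `(s + 1) c(s)`, and
`IsBFunction F ((s + 1) c(s + κ))`, and the weak and the strong conjecture for `F` imply the ones for `f`.

(B) The conjectures hold for all non-constant complex polynomials if and only if they hold for the non-constant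
polynomials `edgePoly E + ∑_i c_i x_i`, `Hyp E`, `c_i ∈ ℂ`.

(C) The conjectures hold for all non-constant polynomials with rational coefficients if and only if they hold for all edge
polynomials `edgePoly E`, `Hyp E`, `E ≠ ∅`. -/
theorem result (χ : MK ℂ →+* ℂ) (hχ : χ ((Lu ℂ : (MK ℂ)ˣ) : MK ℂ) = 1) :
    (∀ {n r : ℕ} (m : Fin r → Fin n →₀ ℕ), ∃ (N κ : ℕ) (E : Finset (Finset (Fin N))) (t : Fin r → Fin N),
      N = n + 2 * κ ∧ Hyp E ∧ Function.Injective t ∧ (∀ j, {t j} ∉ E) ∧
      ∀ (c : Fin r → ℂ) (f : MvPolynomial (Fin n) ℂ) (F : MvPolynomial (Fin N) ℂ),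
        f = ∑ j, C (c j) * monomial (m j) 1 → F = edgePoly E + ∑ j, C (c j) * X (t j) →
        (∀ R : RatFunc ℂ, IsTopZeta χ f R → ∃ R' : RatFunc ℂ, IsTopZeta χ F R' ∧
          (RatFunc.X + (κ : RatFunc ℂ)) * ((RatFunc.X + 1) * R' - 1) =
            RatFunc.X * ((RatFunc.X + (κ : RatFunc ℂ) + 1) * shR (κ : ℂ) R - 1) ∧
          ∀ s : ℂ, s ≠ -1 → ¬ Reg R s → ¬ Reg R' (s - κ)) ∧
        (f.totalDegree ≠ 0 → F.totalDegree ≠ 0 ∧ (∀ b : Polynomial ℂ, IsBFunction f b →
          b.eval (-1) = 0 ∧ ∀ c : Polynomial ℂ, b = (Polynomial.X + 1) * c →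
            IsBFunction F ((Polynomial.X + 1) * c.comp (Polynomial.X + Polynomial.C (κ : ℂ)))) ∧
          (Weak χ F → Weak χ f) ∧ (Strong χ F → Strong χ f))) ∧
    (((∀ (n : ℕ) (f : MvPolynomial (Fin n) ℂ), f.totalDegree ≠ 0 → Weak χ f) ↔
      ∀ (N : ℕ) (E : Finset (Finset (Fin N))) (c : Fin N → ℂ), Hyp E →
        (perturbed E c).totalDegree ≠ 0 → Weak χ (perturbed E c)) ∧
    ((∀ (n : ℕ) (f : MvPolynomial (Fin n) ℂ), f.totalDegree ≠ 0 → Strong χ f) ↔
      ∀ (N : ℕ) (E : Finset (Finset (Fin N))) (c : Fin N → ℂ), Hyp E →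
        (perturbed E c).totalDegree ≠ 0 → Strong χ (perturbed E c))) ∧
    (((∀ (n : ℕ) (f : MvPolynomial (Fin n) ℚ), f.totalDegree ≠ 0 → Weak χ (map (algebraMap ℚ ℂ) f)) ↔
      ∀ (N : ℕ) (E : Finset (Finset (Fin N))), Hyp E → E.Nonempty → Weak χ (edgePoly E)) ∧
    ((∀ (n : ℕ) (f : MvPolynomial (Fin n) ℚ), f.totalDegree ≠ 0 → Strong χ (map (algebraMap ℚ ℂ) f)) ↔
      ∀ (N : ℕ) (E : Finset (Finset (Fin N))), Hyp E → E.Nonempty → Strong χ (edgePoly E))) := by
  refine ⟨fun {n r} m => ?_, ⟨⟨fun h N E c _ hd => h N _ hd, fun h n f hf => ?_⟩,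
    ⟨fun h N E c _ hd => h N _ hd, fun h n f hf => ?_⟩⟩, ⟨⟨fun h N E hE hne => ?_, fun h n f hf => ?_⟩,
    ⟨fun h N E hE hne => ?_, fun h n f hf => ?_⟩⟩⟩
  · obtain ⟨N, κ, E, t, hN, hE, ht, htE, hR⟩ := universal sys m
    refine ⟨N, κ, E, t, hN, hE, ht, htE, fun c f F hf hF => ?_⟩
    have h : RG f F κ := by
      rw [hf, hF]
      exact Red.rg (hR c)
    exact ⟨h.top χ hχ, fun hf0 => ⟨h.deg hf0, h.b hf0, h.tw hχ hf0, h.ts hχ hf0⟩⟩
  · obtain ⟨r, m, c, hc⟩ := as_family f
    obtain ⟨N, κ, E, t, -, hE, -, -, hR⟩ := universal sys m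
    have h1 : RG f (edgePoly E + ∑ j, C (c j) * X (t j)) κ := by
      rw [hc]
      exact Red.rg (hR c)
    obtain ⟨c', hc'⟩ := perturbed_of E t c
    rw [hc'] at h1
    exact h1.tw hχ hf (h N E c' hE (h1.deg hf))
  · obtain ⟨r, m, c, hc⟩ := as_family f
    obtain ⟨N, κ, E, t, -, hE, -, -, hR⟩ := universal sys m
    have h1 : RG f (edgePoly E + ∑ j, C (c j) * X (t j)) κ := by
      rw [hc]
      exact Red.rg (hR c)
    obtain ⟨c', hc'⟩ := perturbed_of E t c
    rw [hc'] at h1
    exact h1.ts hχ hf (h N E c' hE (h1.deg hf))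
  · rw [← map_edge]
    exact h N _ (edge_deg hE hne)
  · obtain ⟨D, hD, hrep⟩ := rat_rep f
    obtain ⟨N, κ, E, -, hE, hR⟩ := rep_hyp sys hrep
    have h1 := Red.rg hR
    have h2 := scale_deg hf hD
    exact tw_scale (by exact_mod_cast hD) (h1.tw hχ h2 (h N E hE (empty_deg (h1.deg h2))))
  · rw [← map_edge]
    exact h N _ (edge_deg hE hne)
  · obtain ⟨D, hD, hrep⟩ := rat_rep f
    obtain ⟨N, κ, E, -, hE, hR⟩ := rep_hyp sys hrep
    have h1 := Red.rg hR
    have h2 := scale_deg hf hD
    exact ts_scale (by exact_mod_cast hD) (h1.ts hχ h2 (h N E hE (empty_deg (h1.deg h2))))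

end Pool.Agent.Results.MP_a2a574_ag.HypergraphPolynomials
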