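import Pool.Agent.Zk22.QC.Pencil2

set_option autoImplicit false

/-! # The monodromy conjecture for pencils of quadrics and their generalisations

Let `F(x₀, x₁, y_1, …, y_m) ≠ 0` be a polynomial which is homogeneous, of any degree `K`, in `(x₀, x₁)`,
of the form

  `F = Q(x₀, x₁; y_i, i ∈ B) + ∑_{j ∉ B} A_j(x₀, x₁) g_j(y_j)`

where `Q` has degree at most two in the `y_i` with `i ∈ B`, the `A_j` are binary forms of degree `K`, and
the `g_j` are arbitrary polynomials in one variable (`pencilPoly B Q A g`). Examples:

* `x₀ f₀(y) + x₁ f₁(y)` for any two polynomials `f₀`, `f₁` of degree at most two (the hypersurface of a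
  pencil of quadrics, homogeneous or not; `K = 1`, all `i ∈ B`),
* `∑_{i, j} A_{i j}(x₀, x₁) y_i y_j` for any symmetric matrix of binary forms of the same degree `K`,
* `x₀ ∑_j a_j g_j(y_j) + x₁ ∑_j b_j g_j(y_j)`, for example a pencil of diagonal forms of degree `d`, and
  sums of these with the polynomials of the first two kinds in further variables `y`.

The singular locus of `F = 0` contains the space `x₀ = x₁ = 0` if `K ≥ 2`; for `K = 1` it contains the base
locus `f₀ = f₁ = 0` in this space. `F` need not be reduced, and there is no condition of nondegeneracy.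
The polynomials of the result `QuadricBundles` of this problem are different: they have one parameter
`x`, no special fibre `x₀ = x₁ = 0`, and no terms `g_j`.

(1) *The germs outside of the space `x₀ = x₁ = 0`.* At every point `p` of `F = 0` with `(p₀, p₁) ≠ 0` the
germ of `F` becomes, in suitable formal coordinates and up to a unit, a sum of `r ≥ 1` monomials with
linearly independent exponents. By homogeneity one of `x₀`, `x₁` can be made equal to one (`Rl_chart`),
and there remains a polynomial `Q(λ; y) + ∑_j a_j(λ) g_j(y_j)`. Its quadratic part is diagonalised over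
`ℂ⟦λ⟧`, and by Hensel's lemma every `g_j(y_j)` is, at the given point, a constant plus a power of a
coordinate (`exists_coord`). The squares are completed where this is possible, and the terms which are
linear in one of the `y` are put together with the function of `λ` which remains
(`comb_nf`, `becomes_comb`): the germ becomes `∑_{i ∈ S} λ ^ (n i) y_i ^ (k i) + E`, with `E = 0`, or
`E = λ ^ γ`, or `E = λ ^ β y_j` for a `j ∉ S`.

(2) *The zeta functions.* For such sums of monomials the starting files contain the strong form of the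
conjecture at the origin, with multiplicities (`Pool.Agent.W425.SL.final`, see
`MP_6163c8_ag/SparseHigherOrder`). The zeta functions at the points with `x₀ = x₁ = 0` are found by
blowing up this space: in the chart `x₁ = x₀ λ` the polynomial is `x₀ ^ K F(1, λ, y)`, the exceptional
divisor has the numerical data `N = K`, `ν = 2`, and

  `Z_{(0, 0, y)}(s) = (K s + 2)⁻¹ ∫_{[a : b] ∈ ℙ¹} Z_{(a, b, y)}(s) dχ`

(the local zeta function at `(a, b, y)`, which is one if `F(a, b, y) ≠ 0`). -/

namespace Pool.Agent.Results.MP_a2a574_ag.PencilsOfQuadrics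

open MvPolynomial Pool.Agent.Zk22.QB Pool.Agent.Zk22.QC
open Pool.Agent.H628R4.TP (IsBFunction)
open Pool.Agent.W425.SM (sparse SmoothFan Principal)
open Pool.Agent.W425.SL (topZetaSparseLocal)

/-- **The monodromy conjecture for the polynomials
`F = Q(x₀, x₁; y) + ∑_{j ∉ B} A_j(x₀, x₁) g_j(y_j)`, homogeneous of degree `K` in `(x₀, x₁)` and with `Q` of
degree at most two in the `y_i`, `i ∈ B`** (`x₀`, `x₁` are the variables with the indices `0`, `1`, and `y_i`
is the one with the index `i.succ.succ`).

(1) At every point `p` of `F = 0` with `(p 0, p 1) ≠ 0` the germ of `F` becomes (`BecomesAt`: in suitable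
formal coordinates at `p`, up to a unit) a sum `sparse v 1 = ∑_j X ^ (v j)` of `r ≥ 1` monomials with
linearly independent exponents `v j`.

(2) Let `b` satisfy a functional equation `b(s) F ^ s = P(s) F ^ (s + 1)`, where `P(s)` is in the Weyl
algebra; for example `b = b_F`. For finitely many points `p t` let `v t` be exponents as in (1) for the germ
of `F` at `p t`, and let `R t` be a smooth fan with support the positive orthant on which the ideal
`(X ^ (v t j))_j` becomes principal, so that `topZetaSparseLocal (v t) (R t)` is the local topological zeta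
function `Z_{p t}` of `F` at `p t`, computed on a toric embedded resolution. Then

  `b(s) (K s + 2) (χ₀ + ∑_t χ_t Z_{p t} + (K s + 2)⁻¹ (χ₁ + ∑_t χ'_t Z_{p t}))`

is a polynomial for all integers `χ₀`, `χ₁`, `χ_t`, `χ'_t`. For `K ≥ 1` the global topological zeta function
of `F` is of the form in the brackets: `χ₀ + ∑_t χ_t Z_{p t}` comes from the points with `(x₀, x₁) ≠ 0`, and
by the formula for `Z_{(0, 0, y)}` above, integrated over `y`, the other summand comes from the
points with `x₀ = x₁ = 0`; both integrals are finite sums, since the local zeta function is constant on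
the members of a finite partition into constructible sets. So every pole of it other than `-2 / K` is
a root of `b_F` of at least the same order, and gives an eigenvalue of the monodromy of `F` by the
theorem of Malgrange and Kashiwara; for `K = 1, 2` the number `exp(2 π i (-2 / K)) = 1` is an eigenvalue
as well, so that the monodromy conjecture holds for these `F` (for `K = 2` in the strong form: `-1` is a root
of `b_F`). -/
theorem result {m K : ℕ} (B : Finset (Fin m)) (Q : MvPolynomial (Fin (m + 2)) ℂ)
    (A : Fin m → MvPolynomial (Fin 2) ℂ) (g : Fin m → Polynomial ℂ)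
    (hQ : ∀ d ∈ Q.support, d 0 + d 1 = K ∧ ∑ i : Fin m, d i.succ.succ ≤ 2 ∧
      ∀ i, i ∉ B → d i.succ.succ = 0)
    (hA : ∀ j, (A j).IsHomogeneous K) (hF : pencilPoly B Q A g ≠ 0) :
    (∀ p : Fin (m + 2) → ℂ, (p 0 ≠ 0 ∨ p 1 ≠ 0) → eval p (pencilPoly B Q A g) = 0 →
      ∃ (r : ℕ) (v : Fin r → Fin (m + 2) → ℕ), 1 ≤ r ∧
        LinearIndependent ℚ (fun j => (fun i => (v j i : ℚ) : Fin (m + 2) → ℚ)) ∧
        BecomesAt (pencilPoly B Q A g) p (sparse v fun _ => 1)) ∧
    ∀ b : Polynomial ℂ, IsBFunction (pencilPoly B Q A g) b →
      ∀ {ι : Type} [Fintype ι] (p : ι → Fin (m + 2) → ℂ) (r : ι → ℕ)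
        (v : ∀ t, Fin (r t) → Fin (m + 2) → ℕ), (∀ t, 1 ≤ r t) →
        (∀ t, LinearIndependent ℚ (fun j => (fun i => (v t j i : ℚ) : Fin (m + 2) → ℚ))) →
        (∀ t, BecomesAt (pencilPoly B Q A g) (p t) (sparse (v t) fun _ => 1)) →
        ∀ R : ι → SmoothFan (m + 2), (∀ t, Principal (v t) (R t)) →
        ∀ (χ₀ χ₁ : ℤ) (χ χ' : ι → ℤ), ∃ P : Polynomial ℂ,
          algebraMap (Polynomial ℂ) (RatFunc ℂ) (b * (Polynomial.C (K : ℂ) * Polynomial.X + 2)) *
            (((χ₀ : RatFunc ℂ) + ∑ t, (χ t : RatFunc ℂ) * topZetaSparseLocal (v t) (R t)) +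
            (algebraMap (Polynomial ℂ) (RatFunc ℂ) (Polynomial.C (K : ℂ) * Polynomial.X + 2))⁻¹ *
              ((χ₁ : RatFunc ℂ) + ∑ t, (χ' t : RatFunc ℂ) * topZetaSparseLocal (v t) (R t))) =
          algebraMap (Polynomial ℂ) (RatFunc ℂ) P := by
  refine ⟨fun p hp0 hp => ?_, ?_⟩
  · obtain ⟨S, n, k, E, e, -, -, -, hG, r, v, hr, hv, hsp⟩ :=
      becomes_pencil B Q A g hQ hA hF p hp0 hp
    exact ⟨r, v, hr, hv, hsp ▸ hG⟩
  · intro b hb ι _ p r v hr hv hG R hR χ₀ χ₁ χ χ'
    refine global_zeta_line _ hb _ (fun h => ?_) p r hr v hv hG R hR χ₀ χ₁ χ χ'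
    have h2 := congrArg (Polynomial.eval 0) h
    simp at h2

end Pool.Agent.Results.MP_a2a574_ag.PencilsOfQuadrics
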