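import Pool.Agent.Zk22.QB.Poly

set_option autoImplicit false

/-! # The monodromy conjecture for all polynomials of degree at most two in all but one variable

Let `f(x, y_1, …, y_m) ≠ 0` be a polynomial of degree at most two in `y = (y_1, …, y_m)`, that is,

  `f = ∑_{i, j} A_{i j}(x) y_i y_j + ∑_i b_i(x) y_i + c(x)`

with arbitrary polynomials `A_{i j}`, `b_i`, `c` in one variable `x`. So `f = 0` is a family of affine
quadrics over the line, for instance a pencil `Q_0(y) + x Q_1(y) = 0`, or `∑ t_i M_{i j}(x) w_j = 0` for a
matrix `M(x)` of polynomials. We prove the strong form of the monodromy conjecture, with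
multiplicities: `b_f(s) Z_f(s)` is a polynomial, where `Z_f` is the global topological zeta function. So
every pole of `Z_f` is a root of `b_f` of at least the same order, and by the theorem of Malgrange and
Kashiwara `exp(2 π i s₀)` is a monodromy eigenvalue of `f` for every pole `s₀`. The singular locus of
`f = 0` can have any dimension, `f` need not be reduced, and in general `f` is not nondegenerate with
respect to a Newton polytope in any coordinates of the affine space.

(1) *The germs.* At every point `p` of `f = 0` the germ of `f` becomes, in suitable formal coordinates and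
up to a unit, one of the polynomials

  `∑_{i ∈ S} x ^ (n i) y_i ^ 2 + E`,  `E = 0`, or `E = x ^ γ` with `γ ≥ 1`, or `E = x ^ β y_j` with `j ∉ S`

(`nform S n (fun _ => 2) E`, `IsTail S E`). For the proof, the symmetric matrix `A(p_0 + x)` over `ℂ⟦x⟧` is
diagonalised (`diag`), the squares are completed where this is possible, the other variables `y_i`
occur in terms `b_i(x) (y_i + r_i(x) y_i ^ 2)` and hence, after a change of coordinates, linearly, and all
the linear terms together with `c(x)` give one term `E`, after division by a unit if `E = x ^ γ`.

(2) *The zeta functions.* These normal forms are sums of monomials with linearly independent exponents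
(`exists_exp`). For such polynomials the starting files contain the strong conjecture at the origin,
with multiplicities (`Pool.Agent.W425.SL.final`, see `MP_6163c8_ag/SparseHigherOrder`). A functional
equation of `f` gives one, with formal power series coefficients, of each normal form
(`local_of_becomes`). -/

namespace Pool.Agent.Results.MP_a2a574_ag.QuadricBundles

open MvPolynomial Pool.Agent.Zk22.QB
open Pool.Agent.H628R4.TP (IsBFunction)
open Pool.Agent.W425.SM (sparse SmoothFan Principal)
open Pool.Agent.W425.SL (topZetaSparseLocal)

/-- **The strong monodromy conjecture, with multiplicities, for the global topological zeta functions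
of all polynomials `f(x, y_1, …, y_m)` of degree at most two in `y`** (`x` is the variable with the index
`0`, `y_i` the one with the index `i.succ`).

(1) Let `p` be a point of `f = 0`. The germ of `f` at `p` becomes (`BecomesAt`: in suitable formal
coordinates at `p`, up to a unit) a normal form `∑_{i ∈ S} x ^ (n i) y_i ^ 2 + E`, and this is a sum
`sparse v 1 = ∑_j X ^ (v j)` of `r ≥ 1` monomials with linearly independent exponents `v j`.

(2) Let `b` satisfy a functional equation `b(s) f ^ s = P(s) f ^ (s + 1)`, where `P(s)` is in the Weyl
algebra; for example `b = b_f`. For finitely many points `p t` let `v t` be exponents as in (1) for the germ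
of `f` at `p t` (`r t ≥ 1`, linearly independent, `BecomesAt f (p t) (∑_j X ^ (v t j))`), and let `R t` be a
smooth fan with support the positive orthant on which the ideal `(X ^ (v t j))_j` becomes principal. Then
`topZetaSparseLocal (v t) (R t)` is the local topological zeta function `Z_{p t}` of `f` at `p t`, computed
on the toric embedded resolution of the normal form, and `b(s) (χ₀ + ∑_t χ_t Z_{p t}(s))` is a polynomial for
all integers `χ₀`, `χ_t`. The global topological zeta function of `f` is of the form
`χ₀ + ∑_t χ_t Z_{p t}`: by the additivity of the Euler characteristic, `χ₀` is the one of the set `f ≠ 0`, and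
the `χ_t` are those of the members of a finite partition of `f = 0` into constructible sets with constant
local zeta function, `p t` in the member with the index `t`. -/
theorem result {m : ℕ} (f : MvPolynomial (Fin (m + 1)) ℂ)
    (hf : ∀ d ∈ f.support, ∑ i : Fin m, d i.succ ≤ 2) (hf0 : f ≠ 0) :
    (∀ p : Fin (m + 1) → ℂ, eval p f = 0 →
      ∃ (S : Finset (Fin m)) (n : Fin m → ℕ) (E : MvPolynomial (Fin (m + 1)) ℂ),
        IsTail S E ∧ BecomesAt f p (nform S n (fun _ => 2) E) ∧
        ∃ (r : ℕ) (v : Fin r → Fin (m + 1) → ℕ), 1 ≤ r ∧
          LinearIndependent ℚ (fun j => (fun i => (v j i : ℚ) : Fin (m + 1) → ℚ)) ∧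
          sparse v (fun _ => 1) = nform S n (fun _ => 2) E) ∧
    ∀ b : Polynomial ℂ, IsBFunction f b →
      ∀ {ι : Type} [Fintype ι] (p : ι → Fin (m + 1) → ℂ) (r : ι → ℕ)
        (v : ∀ t, Fin (r t) → Fin (m + 1) → ℕ), (∀ t, 1 ≤ r t) →
        (∀ t, LinearIndependent ℚ (fun j => (fun i => (v t j i : ℚ) : Fin (m + 1) → ℚ))) →
        (∀ t, BecomesAt f (p t) (sparse (v t) fun _ => 1)) →
        ∀ R : ι → SmoothFan (m + 1), (∀ t, Principal (v t) (R t)) →
        ∀ (χ₀ : ℤ) (χ : ι → ℤ), ∃ P : Polynomial ℂ, algebraMap (Polynomial ℂ) (RatFunc ℂ) b *
          ((χ₀ : RatFunc ℂ) + ∑ t, (χ t : RatFunc ℂ) * topZetaSparseLocal (v t) (R t)) =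
          algebraMap (Polynomial ℂ) (RatFunc ℂ) P := by
  refine ⟨fun p hp => ?_, ?_⟩
  · obtain ⟨S, n, E, hE, hne, h⟩ := becomes_nform f hf hf0 p hp
    exact ⟨S, n, E, hE, h, exists_exp S n (fun _ => 2) (fun _ => two_ne_zero) E hE hne⟩
  · intro b hb ι _ p r v hr hv hG R hR χ₀ χ
    exact global_zeta f hb p r hr v hv hG R hR χ₀ χ

end Pool.Agent.Results.MP_a2a574_ag.QuadricBundles
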